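import Pool.Agent.Q202.Ryll
import Pool.Agent.Q202.MinTop

/-!
# The pointwise topology is minimal on endomorphism monoids of omega-categorical structures

For every countably infinite omega-categorical structure `A` (countable language), every Hausdorff
semigroup topology on `End(A)` that is coarser than or equal to the topology of pointwise
convergence is equal to it.
-/

namespace Pool.Agent.Results.MP_6e9b54_lc.PointwiseMinimal

open FirstOrder FirstOrder.Language Cardinal Topology

universe u v w

/-- The topology of pointwise convergence on `End(A)`: the topology induced by the product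
topology on `A → A`, where `A` is discrete. -/
@[reducible] def pointwiseTopology (L : Language.{u, v}) (A : Type w) [L.Structure A] :
    TopologicalSpace (A →[L] A) :=
  TopologicalSpace.induced (fun (f : A →[L] A) (a : A) => f a)
    (@Pi.topologicalSpace A (fun _ => A) (fun _ => ⊥))

/-- A topology `τ` on `End(A)` is a semigroup topology if composition
`End(A) × End(A) → End(A)` is (jointly) continuous. -/
def IsSemigroupTopology (L : Language.{u, v}) (A : Type w) [L.Structure A]
    (τ : TopologicalSpace (A →[L] A)) : Prop :=
  @Continuous ((A →[L] A) × (A →[L] A)) (A →[L] A) (@instTopologicalSpaceProd _ _ τ τ) τ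
    (fun p => p.1.comp p.2)

/-- **Theorem.** Let `L` be a countable language and `A` a countably infinite `L`-structure whose
complete theory is `ℵ₀`-categorical.  Then every Hausdorff semigroup topology `τ` on `End(A)` all
of whose open sets are open for pointwise convergence is the topology of pointwise
convergence. -/
theorem result (L : Language.{u, v}) [Countable L.Symbols] (A : Type w) [L.Structure A]
    [Countable A] [Infinite A] (hA : Cardinal.Categorical.{u, v, w} ℵ₀ (L.completeTheory A))
    (τ : TopologicalSpace (A →[L] A)) (hT2 : @T2Space _ τ) (hsg : IsSemigroupTopology L A τ)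
    (hcoarser : ∀ U : Set (A →[L] A), IsOpen[τ] U → IsOpen[pointwiseTopology L A] U) :
    τ = pointwiseTopology L A := by
  classical
  have hcat := Q202.Ryll.omegaCat_of_categorical hA
  let G : Subgroup (Equiv.Perm A) :=
    { carrier := {e | ∃ g : A ≃[L] A, ∀ a, g a = e a}
      mul_mem' := by
        rintro e e' ⟨g, hg⟩ ⟨g', hg'⟩
        exact ⟨g.comp g', fun a => by
          rw [Equiv.Perm.mul_apply, ← hg', ← hg]; rfl⟩
      one_mem' := ⟨FirstOrder.Language.Equiv.refl L A, fun a => rfl⟩
      inv_mem' := by
        rintro e ⟨g, hg⟩
        refine ⟨g.symm, fun a => ?_⟩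
        apply g.injective
        rw [FirstOrder.Language.Equiv.apply_symm_apply, hg]
        exact (e.apply_symm_apply a).symm }
  have hG : Q202.MinTop.Oligo G := by
    intro n
    obtain ⟨s, hs, h⟩ := Q202.Ryll.finite_orbits hcat (Fin n)
    refine ⟨s, hs, fun y => ?_⟩
    obtain ⟨x, hx, g, hg⟩ := h y
    exact ⟨x, hx, g.toEquiv, ⟨g, fun a => rfl⟩, hg⟩
  refine Q202.MinTop.core hG (fun (f : A →[L] A) (a : A) => f a) ?_ (fun f g => f.comp g)
    (fun s t a => rfl) ?_ τ hT2 hsg hcoarser
  · intro f hf
    refine ⟨⟨f, ?_, ?_⟩, rfl⟩
    · intro n F x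
      obtain ⟨s, hs⟩ := hf (insert (Structure.funMap F x) (Finset.univ.image x))
      have h1 := hs (Structure.funMap F x) (Finset.mem_insert_self _ _)
      rw [← h1, s.map_fun]
      congr 1
      funext i
      exact hs (x i) (Finset.mem_insert_of_mem (Finset.mem_image_of_mem _ (Finset.mem_univ i)))
    · intro n R x hx
      obtain ⟨s, hs⟩ := hf (Finset.univ.image x)
      have h1 := s.map_rel R x hx
      convert h1 using 1
      funext i
      exact (hs (x i) (Finset.mem_image_of_mem _ (Finset.mem_univ i))).symm
  · rintro e ⟨g, hg⟩
    exact ⟨g.toHom, funext hg⟩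

end Pool.Agent.Results.MP_6e9b54_lc.PointwiseMinimal
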